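import Pool.Agent.helper95.RF.SpecC3

set_option autoImplicit false

/-!
# RF stage 2 (MP_16912e_nt), row GGD: many good tuples (model: helper72/T6/EGD.lean)
-/

namespace Pool.Agent.RF

open Finset NumberField Pool.Agent.helper3.FT

/-- the set of all tuples is finite -/
theorem GGD_fin (P : ℕ) (N X : ℝ) (M₀ : OO → OO) (s₀ : OO → ℤ) : {t : OO × OO × ℤ | TP P N X M₀ s₀ t}.Finite := by
  obtain ⟨A, hA⟩ : ∃ A : ℤ, √(SZ N X) / 100 ≤ (A : ℝ) := ⟨_, Int.le_ceil _⟩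
  have hM : {M : OO | (-A ≤ M.re ∧ M.re ≤ A) ∧ (-A ≤ M.im ∧ M.im ≤ A)}.Finite := by
    refine Set.Finite.subset (((Set.finite_Icc (-A) A).prod (Set.finite_Icc (-A) A)).image
      (fun q : ℤ × ℤ => (⟨q.1, q.2⟩ : OO))) ?_
    rintro M ⟨h1, h2⟩
    exact ⟨(M.re, M.im), ⟨⟨h1.1, h1.2⟩, ⟨h2.1, h2.2⟩⟩, rfl⟩
  have hs : (Set.Icc ⌊SZ N X / 2⌋ ⌈SZ N X⌉).Finite := Set.finite_Icc _ _
  refine Set.Finite.subset ((KT X (10 * P)).finite_toSet.prod (hM.prod hs)) ?_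
  rintro ⟨k, M, s⟩ h
  have h1 := abs_le.1 h.m1
  have h2 := abs_le.1 h.m2
  have h3 := h.s1
  have h4 := h.s2
  simp only at h1 h2 h3 h4
  have e1 : -A ≤ M.re := by
    have : ((-A : ℤ) : ℝ) ≤ (M.re : ℝ) := by
      push_cast
      linarith
    exact_mod_cast this
  have e2 : M.re ≤ A := by
    have : (M.re : ℝ) ≤ (A : ℝ) := by linarith
    exact_mod_cast this
  have e3 : -A ≤ M.im := by
    have : ((-A : ℤ) : ℝ) ≤ (M.im : ℝ) := by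
      push_cast
      linarith
    exact_mod_cast this
  have e4 : M.im ≤ A := by
    have : (M.im : ℝ) ≤ (A : ℝ) := by linarith
    exact_mod_cast this
  have e5 : ⌊SZ N X / 2⌋ ≤ s := by
    have : ((⌊SZ N X / 2⌋ : ℤ) : ℝ) ≤ (s : ℝ) := (Int.floor_le _).trans h3.le
    exact_mod_cast this
  have e6 : s ≤ ⌈SZ N X⌉ := by
    have : (s : ℝ) ≤ ((⌈SZ N X⌉ : ℤ) : ℝ) := h4.trans (Int.le_ceil _)
    exact_mod_cast this
  exact ⟨h.kk, ⟨⟨e1, e2⟩, ⟨e3, e4⟩⟩, ⟨e5, e6⟩⟩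

/-- the sum over the primes of the reciprocal squares -/
theorem GGD_sq (s : Finset ℕ) (w : ℕ) (hw : 1 ≤ w) (hs : ∀ p ∈ s, w < p) :
    ∑ p ∈ s, 1 / (p : ℝ) ^ 2 ≤ 1 / (w : ℝ) := by
  have h1 : s ⊆ Ioc w (w + s.sup id) := by
    intro p hp
    rw [mem_Ioc]
    refine ⟨hs p hp, ?_⟩
    have h2 : p ≤ s.sup id := Finset.le_sup (f := id) hp
    omega
  have h2 : ∑ p ∈ s, 1 / (p : ℝ) ^ 2 ≤ ∑ p ∈ Ioc w (w + s.sup id), 1 / (p : ℝ) ^ 2 :=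
    sum_le_sum_of_subset_of_nonneg h1 fun p _ _ => by positivity
  have h3 := sum_Ioc_inv_sq_le_sub (α := ℝ) (k := w) (n := w + s.sup id) (by omega) (by omega)
  have h4 : ∑ p ∈ Ioc w (w + s.sup id), 1 / (p : ℝ) ^ 2 = ∑ p ∈ Ioc w (w + s.sup id), ((p : ℝ) ^ 2)⁻¹ :=
    sum_congr rfl fun p _ => by rw [one_div]
  have h5 : (0 : ℝ) ≤ ((w + s.sup id : ℕ) : ℝ)⁻¹ := by positivity
  rw [h4] at h2
  have h6 : 1 / (w : ℝ) = (w : ℝ)⁻¹ := one_div _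
  rw [h6]
  linarith

/-- powers of `ρ` -/
theorem GGD_pow {ρ Y : ℝ} (hρ : 1 ≤ ρ) (hY : Y = ρ ^ (7 / 10 : ℝ)) :
    1 ≤ Y ∧ Y ≤ ρ ∧ 1 / ρ ≤ ρ ^ (-(11 / 120) : ℝ) ∧
      Y * (1 / ρ * (Y ^ (1 / 4 : ℝ) * (1 + Y * ρ ^ (-(2 / 3) : ℝ)))) ≤ 2 * ρ ^ (-(11 / 120) : ℝ) := by
  have hρ0 : 0 < ρ := by linarith
  have h1 : 1 ≤ Y := by
    rw [hY]
    exact Real.one_le_rpow hρ (by norm_num)
  have h2 : Y ≤ ρ := by
    rw [hY]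
    calc ρ ^ (7 / 10 : ℝ) ≤ ρ ^ (1 : ℝ) := Real.rpow_le_rpow_of_exponent_le hρ (by norm_num)
      _ = ρ := Real.rpow_one ρ
  have hinv : 1 / ρ = ρ ^ (-1 : ℝ) := by
    rw [Real.rpow_neg_one, one_div]
  have h3 : 1 / ρ ≤ ρ ^ (-(11 / 120) : ℝ) := by
    rw [hinv]
    exact Real.rpow_le_rpow_of_exponent_le hρ (by norm_num)
  refine ⟨h1, h2, h3, ?_⟩
  have e1 : Y ^ (1 / 4 : ℝ) = ρ ^ (7 / 40 : ℝ) := by
    rw [hY, ← Real.rpow_mul hρ0.le]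
    norm_num
  have e2 : Y * (1 / ρ * Y ^ (1 / 4 : ℝ)) = ρ ^ (-(1 / 8) : ℝ) := by
    rw [e1, hY, hinv, ← Real.rpow_add hρ0, ← Real.rpow_add hρ0]
    norm_num
  have e3 : ρ ^ (-(1 / 8) : ℝ) * (Y * ρ ^ (-(2 / 3) : ℝ)) = ρ ^ (-(11 / 120) : ℝ) := by
    rw [hY, ← Real.rpow_add hρ0, ← Real.rpow_add hρ0]
    norm_num
  have e4 : ρ ^ (-(1 / 8) : ℝ) ≤ ρ ^ (-(11 / 120) : ℝ) := Real.rpow_le_rpow_of_exponent_le hρ (by norm_num)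
  calc Y * (1 / ρ * (Y ^ (1 / 4 : ℝ) * (1 + Y * ρ ^ (-(2 / 3) : ℝ))))
      = Y * (1 / ρ * Y ^ (1 / 4 : ℝ)) + Y * (1 / ρ * Y ^ (1 / 4 : ℝ)) * (Y * ρ ^ (-(2 / 3) : ℝ)) := by ring
    _ = ρ ^ (-(1 / 8) : ℝ) + ρ ^ (-(11 / 120) : ℝ) := by rw [e2, e3]
    _ ≤ 2 * ρ ^ (-(11 / 120) : ℝ) := by linarith

/-- the sum of the bounds for the bad tuples -/
theorem GGD_sum {ρ Y C₀ C P5 : ℝ} (L : Finset ℕ) (w : ℕ) (hw : 1 ≤ w) (hρ : 1 ≤ ρ) (hY : Y = ρ ^ (7 / 10 : ℝ)) (hC₀ : 0 ≤ C₀)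
    (hC : 0 ≤ C) (hP : 0 < P5) (hL : ∀ l ∈ L, w < l ∧ (l : ℝ) ≤ Y) :
    ∑ l ∈ L, (C₀ / ((l : ℝ) ^ 2 * P5) + C / ρ * ((l : ℝ) ^ (1 / 4 : ℝ) * (1 + l * ρ ^ (-(2 / 3) : ℝ)))) ≤
      C₀ / (w * P5) + 2 * C * ρ ^ (-(11 / 120) : ℝ) := by
  obtain ⟨hY1, hY2, hY3, hY4⟩ := GGD_pow hρ hY
  have hρ0 : 0 < ρ := by linarith
  have hr : 0 ≤ ρ ^ (-(2 / 3) : ℝ) := Real.rpow_nonneg hρ0.le _
  have hw0 : (0 : ℝ) < w := by exact_mod_cast hw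
  rw [sum_add_distrib]
  have h1 : ∑ l ∈ L, C₀ / ((l : ℝ) ^ 2 * P5) ≤ C₀ / (w * P5) := by
    have e1 : ∑ l ∈ L, C₀ / ((l : ℝ) ^ 2 * P5) = C₀ / P5 * ∑ l ∈ L, 1 / (l : ℝ) ^ 2 := by
      rw [mul_sum]
      refine sum_congr rfl fun l _ => ?_
      rw [div_mul_div_comm, mul_one, mul_comm P5]
    rw [e1]
    have e2 := GGD_sq L w hw (fun l hl => (hL l hl).1)
    calc C₀ / P5 * ∑ l ∈ L, 1 / (l : ℝ) ^ 2 ≤ C₀ / P5 * (1 / w) := mul_le_mul_of_nonneg_left e2 (by positivity)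
      _ = C₀ / (w * P5) := by
          rw [div_mul_div_comm, mul_one, mul_comm P5]
  have hcard : (L.card : ℝ) ≤ Y := by
    have e1 : L ⊆ Icc 1 ⌊Y⌋₊ := by
      intro l hl
      rw [mem_Icc]
      exact ⟨by have := (hL l hl).1; omega, Nat.le_floor (hL l hl).2⟩
    have e2 := card_le_card e1
    rw [Nat.card_Icc, Nat.add_sub_cancel] at e2
    have e3 : (L.card : ℝ) ≤ (⌊Y⌋₊ : ℝ) := by exact_mod_cast e2
    exact e3.trans (Nat.floor_le (by linarith))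
  have h2 : ∑ l ∈ L, C / ρ * ((l : ℝ) ^ (1 / 4 : ℝ) * (1 + l * ρ ^ (-(2 / 3) : ℝ))) ≤ 2 * C * ρ ^ (-(11 / 120) : ℝ) := by
    have hb0 : 0 ≤ C / ρ * (Y ^ (1 / 4 : ℝ) * (1 + Y * ρ ^ (-(2 / 3) : ℝ))) := by positivity
    have e1 : ∀ l ∈ L, C / ρ * ((l : ℝ) ^ (1 / 4 : ℝ) * (1 + l * ρ ^ (-(2 / 3) : ℝ))) ≤
        C / ρ * (Y ^ (1 / 4 : ℝ) * (1 + Y * ρ ^ (-(2 / 3) : ℝ))) := by
      intro l hl
      apply mul_le_mul_of_nonneg_left _ (by positivity)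
      apply mul_le_mul
      · exact Real.rpow_le_rpow (Nat.cast_nonneg l) (hL l hl).2 (by norm_num)
      · have := mul_le_mul_of_nonneg_right (hL l hl).2 hr
        linarith
      · positivity
      · positivity
    refine (sum_le_card_nsmul _ _ _ e1).trans ?_
    rw [nsmul_eq_mul]
    calc (L.card : ℝ) * (C / ρ * (Y ^ (1 / 4 : ℝ) * (1 + Y * ρ ^ (-(2 / 3) : ℝ))))
        ≤ Y * (C / ρ * (Y ^ (1 / 4 : ℝ) * (1 + Y * ρ ^ (-(2 / 3) : ℝ)))) := mul_le_mul_of_nonneg_right hcard hb0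
      _ = C * (Y * (1 / ρ * (Y ^ (1 / 4 : ℝ) * (1 + Y * ρ ^ (-(2 / 3) : ℝ))))) := by ring
      _ ≤ C * (2 * ρ ^ (-(11 / 120) : ℝ)) := mul_le_mul_of_nonneg_left hY4 hC
      _ = 2 * C * ρ ^ (-(11 / 120) : ℝ) := by ring
  linarith

/-- **GGD**. -/
theorem GGD (h1 : GLB_stmt) (h2 : GUA_stmt) (h3 : GUB_stmt) : GGD_stmt := by
  classical
  obtain ⟨c, hc, hL⟩ := h1
  obtain ⟨A₀, hA₀, hA⟩ := h2
  obtain ⟨B₀, hB₀, hB⟩ := h3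
  obtain ⟨w, hwc, hw1⟩ : ∃ w : ℕ, 4 * (A₀ + B₀) / c ≤ w ∧ 1 ≤ w := by
    obtain ⟨a, ha⟩ := exists_nat_ge (4 * (A₀ + B₀) / c)
    exact ⟨max a 1, ha.trans (by exact_mod_cast le_max_left a 1), le_max_right _ _⟩
  have hw0 : (0 : ℝ) < w := by exact_mod_cast hw1
  obtain ⟨P, hP⟩ : ∃ P : ℕ, P = ∏ p ∈ (range (w + 1)).filter (fun p => p.Prime ∧ p ≠ 2 ∧ p ≠ 5), p := ⟨_, rfl⟩
  have hP1 : 1 ≤ P := by
    rw [hP]
    apply Nat.one_le_iff_ne_zero.2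
    rw [Finset.prod_ne_zero_iff]
    intro p hp
    exact (mem_filter.1 hp).2.1.ne_zero
  have hP10 : Nat.Coprime P 10 := by
    rw [hP]
    apply Nat.Coprime.prod_left
    intro p hp
    obtain ⟨-, hpp, h2, h5⟩ := mem_filter.1 hp
    rw [Nat.Prime.coprime_iff_not_dvd hpp]
    intro h10
    have h10' : p ∣ 2 * 5 := h10
    rcases hpp.dvd_mul.1 h10' with h | h
    · exact h2 ((Nat.prime_dvd_prime_iff_eq hpp Nat.prime_two).1 h)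
    · exact h5 ((Nat.prime_dvd_prime_iff_eq hpp Nat.prime_five).1 h)
  have hPl : ∀ l : ℕ, l.Prime → ¬ l ∣ 10 * P → w < l := by
    intro l hl hn
    by_contra hlw
    push Not at hlw
    apply hn
    by_cases h2 : l = 2
    · subst h2
      exact dvd_mul_of_dvd_left (by norm_num) _
    by_cases h5 : l = 5
    · subst h5
      exact dvd_mul_of_dvd_left (by norm_num) _
    apply dvd_mul_of_dvd_right
    rw [hP]
    apply Finset.dvd_prod_of_mem (fun p : ℕ => p)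
    rw [mem_filter, mem_range]
    exact ⟨by omega, hl, h2, h5⟩
  obtain ⟨Ca, hCa, hLa⟩ := hL P hP1
  obtain ⟨Cb, hCb, hAb⟩ := hA P hP1 hP10
  obtain ⟨Cc, hCc, hBc⟩ := hB P hP1 hP10
  obtain ⟨P5, hP5⟩ : ∃ P5 : ℝ, P5 = (P : ℝ) ^ 5 := ⟨_, rfl⟩
  have hP0 : (0 : ℝ) < P := by exact_mod_cast hP1
  have hP5p : 0 < P5 := by
    rw [hP5]
    positivity
  obtain ⟨K, hK⟩ : ∃ K : ℝ, K = Ca + 2 * (Cb + Cc) := ⟨_, rfl⟩
  have hK0 : 0 < K := by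
    rw [hK]
    positivity
  obtain ⟨b, hb⟩ : ∃ b : ℝ, b = 4 * P5 * K / c := ⟨_, rfl⟩
  have hb0 : 0 < b := by
    rw [hb]
    positivity
  refine ⟨P, c / (2 * P5), max 1 (b ^ (120 / 11 : ℝ)), hP1, hP10, by positivity, le_max_left _ _, ?_⟩
  intro ρ hρ
  have hρ1 : 1 ≤ ρ := (le_max_left _ _).trans hρ
  have hρ0 : 0 < ρ := by linarith
  have hρb : b ≤ ρ ^ (11 / 120 : ℝ) := by
    have e1 : b = (b ^ (120 / 11 : ℝ)) ^ (11 / 120 : ℝ) := by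
      rw [← Real.rpow_mul hb0.le]
      norm_num
    rw [e1]
    exact Real.rpow_le_rpow (Real.rpow_nonneg hb0.le _) ((le_max_right _ _).trans hρ) (by norm_num)
  have hKρ : K * ρ ^ (-(11 / 120) : ℝ) ≤ c / (4 * P5) := by
    rw [Real.rpow_neg hρ0.le]
    have hp : 0 < ρ ^ (11 / 120 : ℝ) := Real.rpow_pos_of_pos hρ0 _
    rw [← div_eq_mul_inv, div_le_div_iff₀ hp (by positivity)]
    rw [hb, div_le_iff₀ hc] at hρb
    linarith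
  obtain ⟨Na, hNa⟩ := hLa ρ hρ1
  obtain ⟨Nb, hNb⟩ := hAb ρ hρ1
  obtain ⟨Nc, hNc⟩ := hBc ρ hρ1
  refine ⟨max 0 (max Na (max Nb Nc)), fun N X hN hX hXN M₀ s₀ hMs => ?_⟩
  simp only [max_le_iff] at hN
  obtain ⟨hN0, hN1, hN2, hN3⟩ := hN
  obtain ⟨Y, hY⟩ : ∃ Y : ℝ, Y = ρ ^ (7 / 10 : ℝ) := ⟨_, rfl⟩
  obtain ⟨hY1, hYρ, hρinv, -⟩ := GGD_pow hρ1 hY
  obtain ⟨F₀, hF₀⟩ : ∃ F₀ : Finset (OO × OO × ℤ), ∀ t, t ∈ F₀ ↔ TP P N X M₀ s₀ t := by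
    refine ⟨(GGD_fin P N X M₀ s₀).toFinset, fun t => ?_⟩
    rw [Set.Finite.mem_toFinset]
    rfl
  obtain ⟨L, hLd⟩ : ∃ L : Finset ℕ, L = (range (⌊Y⌋₊ + 1)).filter (fun l => l.Prime ∧ ¬ l ∣ 10 * P) := ⟨_, rfl⟩
  have hLm : ∀ l, l ∈ L ↔ (l : ℝ) ≤ Y ∧ l.Prime ∧ ¬ l ∣ 10 * P := by
    intro l
    rw [hLd, mem_filter, mem_range, Nat.lt_succ_iff, Nat.le_floor_iff (by linarith)]
  obtain ⟨F, hF⟩ : ∃ F : Finset (OO × OO × ℤ), F = F₀.filter (fun t => ∀ l ∈ L, ¬ BadT l t) := ⟨_, rfl⟩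
  have hcard : (F₀.card : ℝ) ≤ F.card + ∑ l ∈ L, ((F₀.filter (fun t => BadT l t)).card : ℝ) := by
    have h1 : F₀ ⊆ F ∪ L.biUnion (fun l => F₀.filter (fun t => BadT l t)) := by
      intro t ht
      by_cases h2 : ∀ l ∈ L, ¬ BadT l t
      · rw [mem_union, hF, mem_filter]
        exact Or.inl ⟨ht, h2⟩
      · push Not at h2
        obtain ⟨l, hl, hlt⟩ := h2
        rw [mem_union, mem_biUnion]
        exact Or.inr ⟨l, hl, mem_filter.2 ⟨ht, hlt⟩⟩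
    have h2 := (card_le_card h1).trans ((card_union_le _ _).trans (Nat.add_le_add_left card_biUnion_le _))
    have h3 : (F₀.card : ℝ) ≤ ((F.card + ∑ l ∈ L, (F₀.filter (fun t => BadT l t)).card : ℕ) : ℝ) := by
      exact_mod_cast h2
    push_cast at h3
    exact h3
  obtain ⟨S, hS⟩ : ∃ S : ℝ, S = ρ ^ (-(2 / 3) : ℝ) * N := ⟨_, rfl⟩
  have hS0 : 0 ≤ S := by
    rw [hS]
    exact mul_nonneg (Real.rpow_nonneg hρ0.le _) hN0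
  have hLow := hNa N X hN1 hX hXN M₀ s₀ hMs F₀ (fun t ht => (hF₀ t).2 ht)
  rw [← hP5, ← hS] at hLow
  have hbad : ∀ l ∈ L, ((F₀.filter (fun t => BadT l t)).card : ℝ) ≤
      ((A₀ + B₀) / ((l : ℝ) ^ 2 * P5) + (Cb + Cc) / ρ * ((l : ℝ) ^ (1 / 4 : ℝ) * (1 + l * ρ ^ (-(2 / 3) : ℝ)))) * S := by
    intro l hl
    obtain ⟨hlY, hlp, hln⟩ := (hLm l).1 hl
    have hcop : Nat.Coprime l (10 * P) := (Nat.Prime.coprime_iff_not_dvd hlp).2 hln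
    have ha := hNb N X hN2 hX hXN l hlp hcop (hlY.trans hYρ) M₀ s₀
      (F₀.filter (fun t => (l : ℤ) ∣ t.2.1.norm ∧ (l : ℤ) ∣ t.2.2 ∧ ¬ (l : ℤ) ∣ t.1.norm))
      (fun t ht => ⟨(hF₀ t).1 (mem_filter.1 ht).1, (mem_filter.1 ht).2⟩)
    have hb := hNc N X hN3 hX hXN l hlp hcop (hlY.trans hYρ) M₀ s₀
      (F₀.filter (fun t => (l : ℤ) ∣ t.2.1.norm ∧ (l : ℤ) ∣ t.1.norm))
      (fun t ht => ⟨(hF₀ t).1 (mem_filter.1 ht).1, (mem_filter.1 ht).2⟩)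
    have hsub : F₀.filter (fun t => BadT l t) ⊆
        (F₀.filter (fun t => (l : ℤ) ∣ t.2.1.norm ∧ (l : ℤ) ∣ t.2.2 ∧ ¬ (l : ℤ) ∣ t.1.norm)) ∪
        (F₀.filter (fun t => (l : ℤ) ∣ t.2.1.norm ∧ (l : ℤ) ∣ t.1.norm)) := by
      intro t ht
      obtain ⟨ht1, ht2, ht3⟩ := mem_filter.1 ht
      rw [mem_union, mem_filter, mem_filter]
      by_cases hk : (l : ℤ) ∣ t.1.norm
      · exact Or.inr ⟨ht1, ht2, hk⟩
      · rcases ht3 with h | h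
        · exact Or.inl ⟨ht1, ht2, h, hk⟩
        · exact absurd h hk
    have hc1 := (card_le_card hsub).trans (card_union_le _ _)
    have hc2 : ((F₀.filter (fun t => BadT l t)).card : ℝ) ≤
        ((F₀.filter (fun t => (l : ℤ) ∣ t.2.1.norm ∧ (l : ℤ) ∣ t.2.2 ∧ ¬ (l : ℤ) ∣ t.1.norm)).card : ℝ) +
        ((F₀.filter (fun t => (l : ℤ) ∣ t.2.1.norm ∧ (l : ℤ) ∣ t.1.norm)).card : ℝ) := by exact_mod_cast hc1
    rw [← hP5, ← hS] at ha hb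
    refine (hc2.trans (add_le_add ha hb)).trans (le_of_eq ?_)
    ring
  have hsum : ∑ l ∈ L, ((F₀.filter (fun t => BadT l t)).card : ℝ) ≤
      ((A₀ + B₀) / (w * P5) + 2 * (Cb + Cc) * ρ ^ (-(11 / 120) : ℝ)) * S := by
    refine (sum_le_sum hbad).trans ?_
    rw [← sum_mul]
    apply mul_le_mul_of_nonneg_right _ hS0
    exact GGD_sum L w hw1 hρ1 hY (by linarith) (by linarith) hP5p
      (fun l hl => ⟨hPl l ((hLm l).1 hl).2.1 ((hLm l).1 hl).2.2, ((hLm l).1 hl).1⟩)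
  refine ⟨F, ?_, ?_⟩
  · intro t ht
    rw [hF, mem_filter] at ht
    refine ⟨(hF₀ t).1 ht.1, fun l hl hlρ hln => ht.2 l ((hLm l).2 ⟨?_, hl, hln⟩)⟩
    rw [hY]
    exact hlρ
  · rw [← hS]
    have q1 : (A₀ + B₀) / (w * P5) ≤ c / (4 * P5) := by
      rw [div_le_iff₀ hc] at hwc
      rw [div_le_div_iff₀ (by positivity) (by positivity)]
      have h1 := mul_le_mul_of_nonneg_right hwc hP5p.le
      linarith
    have q2 : Ca / ρ ≤ Ca * ρ ^ (-(11 / 120) : ℝ) := by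
      rw [div_eq_mul_one_div]
      exact mul_le_mul_of_nonneg_left hρinv (by linarith)
    rw [hK] at hKρ
    have q3 : c / (2 * P5) ≤ c / P5 - Ca / ρ - ((A₀ + B₀) / (w * P5) + 2 * (Cb + Cc) * ρ ^ (-(11 / 120) : ℝ)) := by
      have r1 : c / (2 * P5) = 2 * (c / (4 * P5)) := by
        field_simp
        norm_num
      have r2 : c / P5 = 4 * (c / (4 * P5)) := by
        field_simp
      rw [r1, r2]
      linarith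
    have q4 := mul_le_mul_of_nonneg_right q3 hS0
    have q5 : (c / P5 - Ca / ρ - ((A₀ + B₀) / (w * P5) + 2 * (Cb + Cc) * ρ ^ (-(11 / 120) : ℝ))) * S =
        (c / P5 - Ca / ρ) * S - ((A₀ + B₀) / (w * P5) + 2 * (Cb + Cc) * ρ ^ (-(11 / 120) : ℝ)) * S := by ring
    rw [q5] at q4
    linarith

end Pool.Agent.RF
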